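import Pool.Agent.Helper66.Rot.Tri

/-!
# Rationality of the maximal rotation number of a word (full answer to Q1)

`CircleDeg1Liftˣ` (the units of the monoid of monotone degree one maps of the line) is the group
`G` of all homeomorphisms `f` of the line with `f (x + 1) = f x + 1`,
`translate (ofAdd t)` is the translation `x ↦ x + t`, and `translationNumber` is the rotation
number `lim (f^n x - x) / n`.

For every word `w` in the free group on two letters and all rational `r`, `s`, the set of all
`rot (ρ w)`, where `ρ a` is conjugate in `G` to the translation by `r` and `ρ b` is conjugate in
`G` to the translation by `s`, has a greatest element, and this greatest element is rational.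

The proof (joint work of helper88 and helper66): the supremum is attained; at a maximiser with
irrational rotation number `θ` one conjugates one of the generators by a small bump
at scale `1 / Q`, which increases the rotation number; three constructions of the bump, for `θ`
well approximable from above, badly approximable, and well approximable from below.
-/

namespace Pool.Agent.Results.MP_8e49fc_gt.RotationSupRational

open CircleDeg1Lift

/-- For every `w` in the free group on `a = of 0`, `b = of 1` and all rational `r`, `s`, the set
of rotation numbers of `ρ w`, over all `ρ` with `ρ a` conjugate to the translation by `r` and
`ρ b` conjugate to the translation by `s`, has a greatest element `R`, and `R` is rational. -/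
theorem result (w : FreeGroup (Fin 2)) (r s : ℚ) :
    ∃ R : ℚ, IsGreatest {t : ℝ | ∃ ρ : FreeGroup (Fin 2) →* CircleDeg1Liftˣ,
      IsConj (ρ (FreeGroup.of 0)) (translate (Multiplicative.ofAdd (r : ℝ))) ∧
      IsConj (ρ (FreeGroup.of 1)) (translate (Multiplicative.ofAdd (s : ℝ))) ∧
      t = translationNumber (ρ w)} (R : ℝ) :=
  Pool.Agent.Helper66.RotZ.final_rational w r s

end Pool.Agent.Results.MP_8e49fc_gt.RotationSupRational
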